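import Pool.Agent.R737.HO.Final

/-!
# Hadamard order of the coordinate function on nonpositively curved planes

For every complete conformal metric `lam * (dx² + dy²)` on `ℂ` with Gauss curvature between `-c`
and `0` the coordinate function grows at most exponentially in the Riemannian distance to the
origin; in particular its Hadamard order is at most one.
-/

open Pool.Agent.R737.HO
open scoped ContDiff

namespace Pool.Agent.Results.MP_1759d0_gt.OrderLeOne

theorem result (lam : ℂ → ℝ) (hlam : ContDiff ℝ ∞ lam) (hpos : ∀ z, 0 < lam z)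
    (hcomp : IsCompleteMetric lam) (c : ℝ)
    (hK : ∀ z, -c ≤ gaussCurv lam z ∧ gaussCurv lam z ≤ 0) :
    ∃ f : ℂ → ℂ, (∀ z, f z = z) ∧ Differentiable ℂ f ∧ (∃ z w, f z ≠ f w) ∧
      (∃ A B : ℝ, ∀ z, Real.log ‖f z‖ ≤ A * riemDist lam z 0 + B) ∧
      hadamardOrder lam f ≤ 1 := by
  have hK1 : ∀ z, -c ≤ gaussCurv lam z := fun z => (hK z).1
  have hK2 : ∀ z, gaussCurv lam z ≤ 0 := fun z => (hK z).2
  obtain ⟨A, B, -, -, h⟩ := log_norm_le hlam hpos hcomp hK1 hK2
  exact ⟨fun z => z, fun _ => rfl, differentiable_id, ⟨0, 1, zero_ne_one⟩, ⟨A, B, h⟩,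
    hadamardOrder_id_le hlam hpos hcomp hK1 hK2⟩

end Pool.Agent.Results.MP_1759d0_gt.OrderLeOne
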